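import Pool.Agent.U331.MW.Exp

set_option autoImplicit false

/-! Sums of independent random integers such that the powers of the base are combinations of a bounded number of differences
of likely values of a bounded number of summands: the exponential sums. -/

namespace Pool.Agent.U331.SU
open Finset
open Pool.Agent.H807R2.Dav
open Pool.Agent.W93.AU
open Pool.Agent.W93.DG
open Pool.Agent.U847.XP
open Pool.Agent.U847.TG
open Pool.Agent.U331.MW (norm_far far_norm scls_of_exp)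

/-- The distribution of a sum of independent random integers. -/
structure Sums (b s M : ℕ) (η : ℝ) (k : ℕ) (p : ℕ → ℝ) : Prop where
  ex : ∃ (N : ℕ) (S : Fin N → Finset ℕ) (π : Fin N → ℕ → ℝ),
    (∀ n, (∀ x, 0 ≤ π n x) ∧ ∑ x ∈ S n, π n x = 1) ∧
    (∀ x ∈ Fintype.piFinset S, ∑ n, x n < b ^ k) ∧
    (∀ v, p v = ∑ x ∈ (Fintype.piFinset S).filter (fun x => ∑ n, x n = v), ∏ n, π n (x n)) ∧
    ∃ (J : Finset ℕ) (n : ℕ → Fin s → Fin N) (c : ℕ → Fin s → ℤ) (x y : ℕ → Fin s → ℕ),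
      (J ⊆ range k ∧ k ≤ J.card + s) ∧
      (∀ j ∈ J, ((M * b ^ j : ℕ) : ℤ) = ∑ t, c j t * ((x j t : ℤ) - y j t)) ∧
      (∀ j ∈ J, ∀ t, |c j t| ≤ s ∧ (x j t ∈ S (n j t) ∧ y j t ∈ S (n j t)) ∧
        η ≤ π (n j t) (x j t) ∧ η ≤ π (n j t) (y j t)) ∧
      ∀ m : Fin N, (J.filter fun j => ∃ t, n j t = m).card ≤ s

lemma sums_nonneg {b s M : ℕ} {η : ℝ} {k : ℕ} {p : ℕ → ℝ} (h : Sums b s M η k p) (v : ℕ) : 0 ≤ p v := by
  obtain ⟨N, S, π, h1, _, h3, _⟩ := h.ex
  rw [h3 v]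
  exact sum_nonneg fun x _ => prod_nonneg fun n _ => (h1 n).1 _

/-- the sum over the values -/
lemma sums_sum {b k N : ℕ} {S : Fin N → Finset ℕ} {π : Fin N → ℕ → ℝ} {p : ℕ → ℝ}
    (h2 : ∀ x ∈ Fintype.piFinset S, ∑ n, x n < b ^ k)
    (h3 : ∀ v, p v = ∑ x ∈ (Fintype.piFinset S).filter (fun x => ∑ n, x n = v), ∏ n, π n (x n)) (f : ℕ → ℂ) :
    ∑ v ∈ range (b ^ k), (p v : ℂ) * f v = ∑ x ∈ Fintype.piFinset S, ((∏ n, π n (x n) : ℝ) : ℂ) * f (∑ n, x n) := by
  rw [← sum_fiberwise_of_maps_to (s := Fintype.piFinset S) (t := range (b ^ k)) (g := fun x => ∑ n, x n)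
    (fun x hx => mem_range.2 (h2 x hx))]
  apply sum_congr rfl
  intro v _
  rw [h3 v, Complex.ofReal_sum, sum_mul]
  apply sum_congr rfl
  intro x hx
  rw [(mem_filter.1 hx).2]

lemma ee_sum {N : ℕ} (x : Fin N → ℕ) (θ : ℝ) : ee (((∑ n, x n : ℕ) : ℝ) * θ) = ∏ n, ee ((x n : ℝ) * θ) := by
  have h : ∀ s : Finset (Fin N), ee (((∑ n ∈ s, x n : ℕ) : ℝ) * θ) = ∏ n ∈ s, ee ((x n : ℝ) * θ) := by
    intro s
    classical
    induction s using Finset.induction_on with
    | empty =>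
      have := ee_int 0
      rw [Int.cast_zero] at this
      simpa using this
    | insert a s ha ih =>
      rw [sum_insert ha, prod_insert ha, ← ih, ← ee_add]
      congr 1
      push_cast
      ring
  exact h univ

/-- the characters of a sum of independent random integers -/
lemma sums_char {b k N : ℕ} {S : Fin N → Finset ℕ} {π : Fin N → ℕ → ℝ} {p : ℕ → ℝ}
    (h2 : ∀ x ∈ Fintype.piFinset S, ∑ n, x n < b ^ k)
    (h3 : ∀ v, p v = ∑ x ∈ (Fintype.piFinset S).filter (fun x => ∑ n, x n = v), ∏ n, π n (x n)) (θ : ℝ) :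
    ∑ v ∈ range (b ^ k), (p v : ℂ) * ee (v * θ) = ∏ n, ∑ x ∈ S n, (π n x : ℂ) * ee (x * θ) := by
  rw [sums_sum h2 h3 (fun v => ee (v * θ)), prod_univ_sum]
  apply sum_congr rfl
  intro x _
  rw [prod_mul_distrib, ee_sum]
  push_cast
  rfl

lemma factor_le_one {S : Finset ℕ} {π : ℕ → ℝ} (h0 : ∀ x, 0 ≤ π x) (h1 : ∑ x ∈ S, π x = 1) (θ : ℝ) :
    ‖∑ x ∈ S, (π x : ℂ) * ee (x * θ)‖ ≤ 1 := by
  rw [← h1]
  refine (norm_sum_le _ _).trans (le_of_eq ?_)
  apply sum_congr rfl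
  intro x _
  rw [norm_mul, norm_ee, mul_one, Complex.norm_real, Real.norm_eq_abs, abs_of_nonneg (h0 x)]

lemma factor_small {S : Finset ℕ} {π : ℕ → ℝ} (h0 : ∀ x, 0 ≤ π x) (h1 : ∑ x ∈ S, π x = 1) (θ η δ : ℝ) (hη : 0 ≤ η) (hδ0 : 0 < δ)
    (x y : ℕ) (hx : x ∈ S) (hy : y ∈ S) (hxη : η ≤ π x) (hyη : η ≤ π y)
    (hfar : ∀ n : ℤ, δ ≤ |((x : ℝ) - y) * θ - n|) : ‖∑ x ∈ S, (π x : ℂ) * ee (x * θ)‖ ≤ 1 - 4 * η * δ ^ 2 := by
  have hxy : x ≠ y := by
    rintro rfl
    have := hfar 0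
    simp only [sub_self, zero_mul, Int.cast_zero, abs_zero] at this
    linarith
  have hy' : y ∈ S.erase x := mem_erase.2 ⟨hxy.symm, hy⟩
  rw [← h1, ← add_sum_erase _ _ hx, ← add_sum_erase _ _ hy', ← add_sum_erase S _ hx, ← add_sum_erase _ _ hy']
  have hfar' : ‖1 + ee (((x : ℝ) - y) * θ)‖ ≤ 2 - 4 * δ ^ 2 := far_norm δ _ hδ0.le hfar
  have e1 : ‖ee (x * θ) + ee (y * θ)‖ ≤ 2 - 4 * δ ^ 2 := by
    have e2 : ee (x * θ) + ee (y * θ) = ee (y * θ) * (1 + ee (((x : ℝ) - y) * θ)) := by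
      rw [mul_add, mul_one, ← ee_add, add_comm]
      congr 2
      ring
    rw [e2, norm_mul, norm_ee, one_mul]
    exact hfar'
  have e3 : ‖(π x : ℂ) * ee (x * θ) + (π y : ℂ) * ee (y * θ)‖ ≤ π x + π y - 4 * η * δ ^ 2 := by
    have e4 : (π x : ℂ) * ee (x * θ) + (π y : ℂ) * ee (y * θ) =
        ((π x - η : ℝ) : ℂ) * ee (x * θ) + ((π y - η : ℝ) : ℂ) * ee (y * θ) + (η : ℂ) * (ee (x * θ) + ee (y * θ)) := by
      push_cast
      ring
    rw [e4]
    refine (norm_add_le _ _).trans ?_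
    have k1 : ‖((π x - η : ℝ) : ℂ) * ee (x * θ) + ((π y - η : ℝ) : ℂ) * ee (y * θ)‖ ≤ (π x - η) + (π y - η) := by
      refine (norm_add_le _ _).trans ?_
      rw [norm_mul, norm_mul, norm_ee, norm_ee, mul_one, mul_one, Complex.norm_real, Complex.norm_real, Real.norm_eq_abs,
        Real.norm_eq_abs, abs_of_nonneg (by linarith), abs_of_nonneg (by linarith)]
    have k2 : ‖(η : ℂ) * (ee (x * θ) + ee (y * θ))‖ ≤ η * (2 - 4 * δ ^ 2) := by
      rw [norm_mul, Complex.norm_real, Real.norm_eq_abs, abs_of_nonneg hη]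
      exact mul_le_mul_of_nonneg_left e1 hη
    linarith
  have e5 : ‖∑ z ∈ (S.erase x).erase y, (π z : ℂ) * ee (z * θ)‖ ≤ ∑ z ∈ (S.erase x).erase y, π z := by
    refine (norm_sum_le _ _).trans (le_of_eq ?_)
    apply sum_congr rfl
    intro z _
    rw [norm_mul, norm_ee, mul_one, Complex.norm_real, Real.norm_eq_abs, abs_of_nonneg (h0 z)]
  rw [← add_assoc]
  refine (norm_add_le _ _).trans ?_
  linarith

open Classical in
/-- the exponential sums decay exponentially -/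
theorem sums_exp (b s M : ℕ) (hb : 2 ≤ b) (η : ℝ) (hη0 : 0 < η) : CharExp b M (Sums b s M η) := by
  intro c hc0 hc1
  obtain ⟨δ, hδ⟩ : ∃ δ : ℝ, δ = c / (14 * ((s : ℝ) + 1) ^ 2) := ⟨_, rfl⟩
  have hs0 : (0 : ℝ) ≤ s := Nat.cast_nonneg s
  have hδ0 : 0 < δ := by rw [hδ]; positivity
  have hδs : (s : ℝ) * s * δ < c / 7 := by
    rw [hδ, mul_div_assoc', div_lt_div_iff₀ (by positivity) (by norm_num)]
    have : (s : ℝ) * s ≤ ((s : ℝ) + 1) ^ 2 := by nlinarith
    nlinarith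
  have hδ1 : δ ≤ 1 / 4 := by
    rw [hδ, div_le_iff₀ (by positivity)]
    nlinarith
  obtain ⟨η', hη'⟩ : ∃ η' : ℝ, η' = min η 1 := ⟨_, rfl⟩
  have hη'0 : 0 < η' := by rw [hη']; exact lt_min hη0 one_pos
  have hη'1 : η' ≤ 1 := by rw [hη']; exact min_le_right _ _
  have hη'η : η' ≤ η := by rw [hη']; exact min_le_left _ _
  obtain ⟨ν, hν⟩ : ∃ ν : ℝ, ν = 1 - 4 * η' * δ ^ 2 := ⟨_, rfl⟩
  have hν0 : 0 < ν := by
    rw [hν]
    have h1 : δ ^ 2 ≤ 1 / 16 := by nlinarith
    have h2 : η' * δ ^ 2 ≤ 1 * (1 / 16) := mul_le_mul hη'1 h1 (by positivity) (by norm_num)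
    linarith
  have hν1 : ν < 1 := by
    rw [hν]
    have : 0 < η' * δ ^ 2 := by positivity
    linarith
  refine ⟨ν, 0, 2 * s + 1, hν0, hν1, by omega, fun k p hp θ n0 ht => ?_⟩
  obtain ⟨N, S, π, h1, h2, h3, J, n, c', x, y, ⟨hJ1, hJ2⟩, hrep, hval, hmult⟩ := hp.ex
  rw [pow_zero, one_mul, sums_char h2 h3, norm_prod]
  -- the good factors
  obtain ⟨𝒩, h𝒩⟩ : ∃ 𝒩 : Finset (Fin N), 𝒩 = univ.filter (fun m => ‖∑ x ∈ S m, (π m x : ℂ) * ee (x * θ)‖ ≤ ν) := ⟨_, rfl⟩
  have hbig : n0 ≤ 𝒩.card := by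
    have hsub : (range k).filter (fun j : ℕ => Gd b c ((b : ℝ) ^ j * ((M : ℝ) * θ))) ⊆
        (range k \ J) ∪ 𝒩.biUnion (fun m => J.filter fun j => ∃ t, n j t = m) := by
      intro j hj
      rw [mem_filter] at hj
      rw [mem_union, mem_sdiff, mem_biUnion]
      by_cases hjJ : j ∈ J
      swap
      · exact Or.inl ⟨hj.1, hjJ⟩
      right
      by_contra hcon
      push Not at hcon
      -- all the differences are close to the integers
      have hclose : ∀ t, ∃ z : ℤ, |((x j t : ℝ) - y j t) * θ - z| < δ := by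
        intro t
        by_contra hfar
        push Not at hfar
        obtain ⟨_, ⟨q2, q3⟩, q4, q5⟩ := hval j hjJ t
        apply hcon (n j t)
        · rw [h𝒩, mem_filter]
          refine ⟨mem_univ _, ?_⟩
          rw [hν]
          exact factor_small (h1 _).1 (h1 _).2 θ η' δ hη'0.le hδ0 _ _ q2 q3 (hη'η.trans q4) (hη'η.trans q5) hfar
        · rw [mem_filter]
          exact ⟨hjJ, t, rfl⟩
      choose z hz using hclose
      have hgd := hj.2 0 1 (by norm_num) (by omega)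
      rw [Nat.cast_zero, zero_mul, Nat.cast_one, one_mul] at hgd
      have h0 : ee 0 = 1 := by
        have := ee_int 0
        rwa [Int.cast_zero] at this
      rw [h0] at hgd
      have hfar := norm_far _ c hgd (∑ t, c' j t * z t)
      have e1 : (b : ℝ) ^ j * ((M : ℝ) * θ) = ∑ t, (c' j t : ℝ) * (((x j t : ℝ) - y j t) * θ) := by
        have h4 : ((M * b ^ j : ℕ) : ℝ) = ∑ t, (c' j t : ℝ) * ((x j t : ℝ) - y j t) := by
          have := hrep j hjJ
          exact_mod_cast this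
        calc (b : ℝ) ^ j * ((M : ℝ) * θ) = ((M * b ^ j : ℕ) : ℝ) * θ := by push_cast; ring
          _ = _ := by
              rw [h4, sum_mul]
              apply sum_congr rfl
              intro t _
              ring
      rw [e1] at hfar
      have e2 : |∑ t, (c' j t : ℝ) * (((x j t : ℝ) - y j t) * θ) - ((∑ t, c' j t * z t : ℤ) : ℝ)| ≤ s * s * δ := by
        have e3 : ∑ t, (c' j t : ℝ) * (((x j t : ℝ) - y j t) * θ) - ((∑ t, c' j t * z t : ℤ) : ℝ) =
            ∑ t, (c' j t : ℝ) * ((((x j t : ℝ) - y j t) * θ) - z t) := by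
          push_cast
          rw [← sum_sub_distrib]
          apply sum_congr rfl
          intro t _
          ring
        rw [e3]
        refine (abs_sum_le_sum_abs _ _).trans ?_
        calc ∑ t, |(c' j t : ℝ) * ((((x j t : ℝ) - y j t) * θ) - z t)| ≤ ∑ _t : Fin s, (s : ℝ) * δ := by
              apply sum_le_sum
              intro t _
              rw [abs_mul]
              apply mul_le_mul _ (hz t).le (abs_nonneg _) hs0
              have := (hval j hjJ t).1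
              exact_mod_cast this
          _ = s * s * δ := by
              rw [sum_const, card_univ, Fintype.card_fin, nsmul_eq_mul]
              ring
      linarith
    have hc1 := (card_le_card hsub).trans (card_union_le _ _)
    have hc2 : (range k \ J).card ≤ s := by
      rw [card_sdiff_of_subset hJ1, card_range]
      omega
    have hc3 : (𝒩.biUnion (fun m => J.filter fun j => ∃ t, n j t = m)).card ≤ 𝒩.card * s :=
      card_biUnion_le_card_mul _ _ _ (fun m _ => hmult m)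
    by_contra hcon
    have hcon' : 𝒩.card + 1 ≤ n0 := by omega
    have h7 : (2 * s + 1) * (n0 + 1) ≤ s + 𝒩.card * s := ht.trans (hc1.trans (add_le_add hc2 hc3))
    nlinarith
  calc ∏ m, ‖∑ x ∈ S m, (π m x : ℂ) * ee (x * θ)‖ ≤ ∏ m, (if m ∈ 𝒩 then ν else 1) := by
        apply prod_le_prod
        · intro m _
          exact norm_nonneg _
        · intro m _
          split_ifs with hm
          · rw [h𝒩, mem_filter] at hm
            exact hm.2
          · exact factor_le_one (h1 m).1 (h1 m).2 θ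
    _ = ν ^ 𝒩.card := by
        rw [prod_ite]
        simp
    _ ≤ ν ^ n0 := pow_le_pow_of_le_one hν0.le hν1.le hbig

lemma sums_one {b s M : ℕ} {η : ℝ} {k : ℕ} {p : ℕ → ℝ} (h : Sums b s M η k p) : ∑ v ∈ range (b ^ k), p v = 1 := by
  obtain ⟨N, S, π, h1, h2, h3, _⟩ := h.ex
  have h4 := sums_char h2 h3 0
  have e0 : ee 0 = 1 := by
    have := ee_int 0
    rwa [Int.cast_zero] at this
  simp only [mul_zero, e0, mul_one] at h4
  have h5 : ∏ n, ∑ x ∈ S n, (π n x : ℂ) = 1 := by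
    apply prod_eq_one
    intro n _
    rw [← Complex.ofReal_sum, (h1 n).2, Complex.ofReal_one]
  rw [h5] at h4
  exact_mod_cast h4

/-- sums of independent random integers: the class -/
theorem sums_scls (b s M : ℕ) (hb : 2 ≤ b) (hM : 1 ≤ M) (η : ℝ) (hη0 : 0 < η) : SCls b (b.factorial * M) (Sums b s M η) :=
  scls_of_exp b M hb hM _ (fun _ _ h => sums_nonneg h) (fun _ _ h => sums_one h) (sums_exp b s M hb η hη0)

end Pool.Agent.U331.SU
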